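import Pool.Agent.helper86.CM.FinE

set_option autoImplicit false

/-!
# MP_07c750_an: the quantum limits of quantum cat maps along the powers of an odd prime

`A` is an ergodic integer symplectic matrix of theta type and `p` an odd prime. The limits of the
Wigner transforms of arbitrary eigenvectors of the quantizations of `A` with Planck parameters
`p ^ k`, `k → ∞`, are exactly the elements of the closed convex hull of the scar functions, and
quantum unique ergodicity holds for all eigenvectors if and only if no power of `A` preserves a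
nonzero isotropic saturated sublattice.
-/

namespace Pool.Agent.helper62.Reserve.CatMapClassification

open Pool.Agent.helper86.CM

theorem result (g p : ℕ) [Fact p.Prime] (hp : p ≠ 2)
    (A : Matrix (Fin g ⊕ Fin g) (Fin g ⊕ Fin g) ℤ) (hA : A ∈ Matrix.symplecticGroup (Fin g) ℤ)
    (hq : ∀ n : Lat g, (2 : ℤ) ∣ qf (act A 1 n) - qf n)
    (herg : ∀ m : ℕ, 0 < m → ∀ z : Lat g, act A m z = z → z = 0) :
    (∀ F : Lat g → ℂ, IsWignerLimit p A F ↔ F ∈ closure (convexHull ℝ (ScarSet p A))) ∧
    (∀ F : Lat g → ℂ, IsWignerLimit p A F → IsTransform F) ∧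
    ((∀ F : Lat g → ℂ, IsWignerLimit p A F → ∀ n : Lat g, n ≠ 0 → F n = 0) ↔
      ∀ m : ℕ, 0 < m → ∀ Λ : Submodule ℤ (Lat g), IsInvIso A m Λ → Λ = ⊥) :=
  FINAL' g p hp A hA hq herg

end Pool.Agent.helper62.Reserve.CatMapClassification
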