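import Pool.Agent.helper62.RS.Fin

set_option autoImplicit false

/-!
# MP_07c750_an: quantum ergodicity with a power saving on every closed hyperbolic surface

`M = Γ \ ℍ` is an arbitrary closed hyperbolic surface. Of any orthonormal eigenfunctions with spectral parameters in
a window `[r, r + 1]` (which has dimension about `vol(M) r / (2 π)`) all but `r ^ (1 - δ)` are equidistributed up to
`ε`, simultaneously for all test functions with Lipschitz constant `1`.
-/

open scoped MatrixGroups Topology UpperHalfPlane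
open UpperHalfPlane MeasureTheory Set

namespace Pool.Agent.helper62.Reserve.FewExceptions

open Pool.Agent.RS

theorem result (Γ : Subgroup SL(2, ℝ)) (F : Set ℍ) (hΓ : QU.SurfaceGroup Γ)
    (hF : IsFundamentalDomain Γ F (volume : Measure ℍ)) (ε : ℝ) (hε : 0 < ε) :
    ∃ δ r₀ : ℝ, 0 < δ ∧ ∀ (r : ℝ) (N : ℕ) (s : Fin N → ℝ) (φ : Fin N → ℍ → ℂ), r₀ ≤ r →
      EFam Γ F r N s φ →
        ({j : Fin N | ∃ h : ℍ → ℝ, Lip1 Γ h ∧
          ε ≤ |(∫ z in F, h z * ‖φ j z‖ ^ 2) - (∫ z in F, h z) / (volume F).toReal|}.ncard : ℝ) ≤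
        r ^ (1 - δ) :=
  FN_exc hΓ hF hε

end Pool.Agent.helper62.Reserve.FewExceptions
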