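import Pool.Agent.helper4.QX.AllE

set_option autoImplicit false

/-!
# MP_07c750_an: quantum unique ergodicity with a rate, in flat bundles of rank polylogarithmic in the eigenvalue

`M = Γ \ ℍ` is a closed hyperbolic surface of genus `g`. There is a universal constant `s > 0` and there are flat
unitary bundles `E_n` over `M` of every rank `n`, such that all eigensections of `E_n` with eigenvalues in
`[0, exp(n^s)]` are equidistributed over `M`, with the rate `n^(-s)` simultaneously for all functions with Lipschitz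
constant `1` (that is, in the Wasserstein distance `W₁`). So for the fixed surface `M` and `μ → ∞` the rank
needed is only a power of `log μ`.
-/

open scoped MatrixGroups UpperHalfPlane
open UpperHalfPlane Filter

namespace Pool.Agent.helper62.Reserve.FlatBundlesPowerRate

open Pool.Agent.QU Pool.Agent.RP

theorem result : ∃ s : ℝ, 0 < s ∧ ∀ Γ : Subgroup SL(2, ℝ), SurfaceGroup Γ → ∀ g : ℕ, 2 ≤ g →
    Nonempty (Γ ≃* SurfGrp g) →
    ∃ ρ : ∀ n : ℕ, Γ →* (EuclideanSpace ℂ (Fin n) ≃ₗᵢ[ℂ] EuclideanSpace ℂ (Fin n)),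
      (∃ n₀ : ℕ, ∀ n : ℕ, n₀ ≤ n → ∀ (μ : ℝ) (φ : ℍ → EuclideanSpace ℂ (Fin n)), 0 ≤ μ →
        μ ≤ Real.exp ((n : ℝ) ^ s) → IsEigensection (ρ n) μ φ →
        ∀ h : ℍ → ℝ, (∀ (γ : Γ) (z : ℍ), h (γ • z) = h z) → (∀ z w : ℍ, |h z - h w| ≤ dist z w) →
          Equidist Γ h (fun z => ‖φ z‖ ^ 2) ((n : ℝ) ^ (-s))) ∧
      ∀ h : ℍ → ℝ, IsTest Γ h → ∀ ε : ℝ, 0 < ε → ∀ᶠ n in atTop,
        ∀ (μ : ℝ) (φ : ℍ → EuclideanSpace ℂ (Fin n)), 0 ≤ μ → μ ≤ Real.exp ((n : ℝ) ^ s) →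
          IsEigensection (ρ n) μ φ → Equidist Γ h (fun z => ‖φ z‖ ^ 2) ε :=
  Pool.Agent.QX.A_EFB

end Pool.Agent.helper62.Reserve.FlatBundlesPowerRate
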