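import Pool.Agent.helper62.RS.Fin

set_option autoImplicit false

/-!
# MP_07c750_an: on every closed hyperbolic surface, scars of eigenfunctions are rare

`M = Γ \ ℍ` is an arbitrary closed hyperbolic surface and `φ_1, ..., φ_N` are orthonormal eigenfunctions of its
Laplacian whose spectral parameters lie in a window `[r, r + 1]`; nothing else is assumed of the functions. By the
law of Weyl the window has about `vol(M) r / (2 π)` orthonormal eigenfunctions.

* `(1)` for every closed geodesic there is a neighbourhood such that at most `r ^ (1 - 2 σ + ε)` of the functions have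
  mass at least `σ` in it.
* `(2)` the general form: the larger `N` is, the closer the average of the `|φ_j|²` is to being uniform. It is,
  for functions on `M`, the dual form of the entropy bound `(1 + β) / 2` for the average of `r ^ β`
  eigenfunctions; for `β = 0` this is the bound of Anantharaman and Nonnenmacher.
-/

open scoped MatrixGroups Topology UpperHalfPlane
open UpperHalfPlane MeasureTheory Set

namespace Pool.Agent.Results.MP_07c750_an.RareScars

open Pool.Agent.RS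

theorem result (Γ : Subgroup SL(2, ℝ)) (F : Set ℍ) (hΓ : QU.SurfaceGroup Γ)
    (hF : IsFundamentalDomain Γ F (volume : Measure ℍ)) :
    -- (1)
    (∀ c : ℝ → ℍ, ClosedGeo Γ c → ∀ ε : ℝ, 0 < ε → ∃ δ r₀ : ℝ, 0 < δ ∧
      ∀ (σ r : ℝ) (N : ℕ) (s : Fin N → ℝ) (φ : Fin N → ℍ → ℂ), r₀ ≤ r → EFam Γ F r N s φ →
        ({j : Fin N | σ ≤ ∫ z in F ∩ Tube Γ c δ, ‖φ j z‖ ^ 2}.ncard : ℝ) ≤
          r ^ (1 - 2 * σ + ε)) ∧
    -- (2)
    (∀ (h : ℍ → ℝ) (p : ℝ), Continuous h → (∀ (γ : Γ) (z : ℍ), h (γ • z) = h z) →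
      (∃ T₀ : ℝ, ∀ T, T₀ ≤ T → ∫ z in F, ∫ θ in (0 : ℝ)..(2 * Real.pi),
        Real.exp (∫ t in (0 : ℝ)..T, h (gd z θ t)) ≤ Real.exp (p * T)) →
      ∀ ε : ℝ, 0 < ε → ∃ r₀ : ℝ, ∀ (r : ℝ) (N : ℕ) (s : Fin N → ℝ) (φ : Fin N → ℍ → ℂ), r₀ ≤ r →
        1 ≤ N → EFam Γ F r N s φ →
          (∑ j, ∫ z in F, h z * ‖φ j z‖ ^ 2) / N ≤
            p + (1 / 2) * (1 - Real.log N / Real.log r) + ε) :=
  ⟨fun _ hc _ hε => FN_scar hΓ hF hc hε, (A_EFD Γ F hΓ hF).1⟩

end Pool.Agent.Results.MP_07c750_an.RareScars
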